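import Pool.Agent.Helper76.TC.Goals

/-! Packet NR of project TC: the tori of the example are close to the unit interval. -/

set_option autoImplicit false

open Set Topology

namespace Pool.Agent.Helper96.TC.NR

open Pool.Agent.Helper76.TC
open Pool.Agent.Helper50.CT (rv Cov Sh)

theorem t (me : S_ME) (tm : S_TM) (qt : S_QT) : S_NR := by
  intro m ε δ hε hδ
  obtain ⟨T, iM, iC, iN, π, hT⟩ := qt (m + 3) 3 (dd m ε) (tm m ε hε)
  obtain ⟨me1, me2, me3, me4⟩ := me m
  have hd0 : ∀ x y : Fin (m + 3) → ℝ, 0 ≤ dd m ε x y := by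
    intro x y
    unfold dd
    positivity
  have hlow : ∀ x y : Fin (m + 3) → ℝ, |uu m x - uu m y| ≤ dist (π x) (π y) := by
    intro x y
    rw [hT.quot]
    refine le_ciInf fun k => ?_
    unfold dd
    rw [me3 k y]
    have : 0 ≤ ε * ‖x - (rv k + y)‖ := by positivity
    linarith
  have hup : ∀ x y : Fin (m + 3) → ℝ, dist (π x) (π y) ≤ ε + |uu m x - uu m y| := by
    intro x y
    rw [hT.quot]
    have hb : BddBelow (Set.range fun k : Fin (m + 3) → ℤ => dd m ε x (rv k + y)) := by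
      refine ⟨0, ?_⟩
      rintro _ ⟨k, rfl⟩
      exact hd0 _ _
    refine (ciInf_le hb (fun i => round (x i - y i))).trans ?_
    unfold dd
    rw [me3]
    have h1 : ‖x - (rv (fun i => round (x i - y i)) + y)‖ ≤ 1 := by
      rw [pi_norm_le_iff_of_nonneg zero_le_one]
      intro i
      have h2 := abs_sub_round (x i - y i)
      simp only [Pi.sub_apply, Pi.add_apply, rv, Real.norm_eq_abs]
      have h3 : x i - ((round (x i - y i) : ℝ) + y i) = x i - y i - round (x i - y i) := by ring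
      rw [h3]
      linarith
    have h4 : ε * ‖x - (rv (fun i => round (x i - y i)) + y)‖ ≤ ε * 1 :=
      mul_le_mul_of_nonneg_left h1 hε.le
    linarith
  let r : T → (Fin (m + 3) → ℝ) := Function.surjInv hT.surj
  have hr : ∀ s, π (r s) = s := Function.surjInv_eq hT.surj
  have iN' : Nonempty (Icc (0 : ℝ) 1) := ⟨⟨0, by simp⟩⟩
  let Φ : ↥(Set.univ : Set T) → Icc (0 : ℝ) 1 := fun s => ⟨uu m (r s.1), me1 (r s.1)⟩
  refine ⟨T, iM, iC, iN, iN', π, hT, ?_⟩
  have key : GromovHausdorff.ghDist T (Icc (0 : ℝ) 1) ≤ 0 + ε / 2 + 0 := by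
    refine GromovHausdorff.ghDist_le_of_approx_subsets (s := (Set.univ : Set T)) Φ ?_ ?_ ?_
    · intro x
      exact ⟨x, Set.mem_univ _, by simp⟩
    · rintro ⟨s, hs0, hs1⟩
      obtain ⟨x, hx⟩ := me4 s hs0 hs1
      refine ⟨⟨π x, Set.mem_univ _⟩, ?_⟩
      have h5 := hlow x (r (π x))
      rw [hr, dist_self] at h5
      have h6 : uu m x - uu m (r (π x)) = 0 := abs_eq_zero.1 (le_antisymm h5 (abs_nonneg _))
      rw [Subtype.dist_eq, Real.dist_eq]
      have h7 : s - uu m (r (π x)) = 0 := by linarith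
      change |s - uu m (r (π x))| ≤ 0
      rw [h7]; simp
    · rintro ⟨x, hx⟩ ⟨y, hy⟩
      have h5 := hlow (r x) (r y)
      have h6 := hup (r x) (r y)
      rw [hr, hr] at h5 h6
      rw [Subtype.dist_eq (⟨x, hx⟩ : (Set.univ : Set T)), Subtype.dist_eq (Φ ⟨x, hx⟩), Real.dist_eq]
      change abs (dist x y - abs (uu m (r x) - uu m (r y))) ≤ ε
      rw [abs_le]
      constructor <;> linarith
  linarith

end Pool.Agent.Helper96.TC.NR
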